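import Pool.Agent.H6.W.G.Stm

set_option autoImplicit false

namespace Pool.Agent.H6.W.G.NBAS1

open Polynomial Pool.Agent.H6.W.G

theorem t_RmulL : S_RmulL := by
  intro K _ a b c ha hb
  unfold R
  rw [aroots_mul (mul_ne_zero ha hb), Multiset.map_add, Multiset.prod_add]

theorem t_RmulR : S_RmulR := by
  intro K _ a b c
  unfold R
  rw [← Multiset.prod_map_mul]
  simp only [map_mul]

theorem t_Rcongr : S_Rcongr := by
  intro K _ a b c h
  unfold R
  congr 1
  refine Multiset.map_congr rfl ?_
  intro r hr
  have ha : a ≠ 0 := (mem_aroots'.mp hr).1 |> fun h => by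
    intro h0; apply h; simp [h0]
  have h0 : aeval r a = 0 := (mem_aroots.mp hr).2
  obtain ⟨d, hd⟩ := h
  have : b = c + a * d := by rw [← hd]; ring
  rw [this, map_add, map_mul, h0, zero_mul, add_zero]

theorem t_RC : S_RC := by
  intro K _ a c
  unfold R
  simp only [aeval_C]
  rw [Multiset.map_const', Multiset.prod_replicate]
  congr 1
  have := (IsAlgClosed.splits (a.map (algebraMap K (AlgebraicClosure K)))).natDegree_eq_card_roots
  rw [natDegree_map] at this
  rw [this]

end Pool.Agent.H6.W.G.NBAS1
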