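import Pool.Agent.H6.W.G.Stm

open Polynomial Pool.Agent.H6.W.G

namespace Pool.Agent.H6.W.G.NBAS2

theorem t_Rne : S_Rne := by
  intro K _ a b ha
  have ham : a.map (algebraMap K (AlgebraicClosure K)) ≠ 0 :=
    (Polynomial.map_ne_zero_iff (algebraMap K (AlgebraicClosure K)).injective).2 ha
  unfold R
  rw [Ne, Multiset.prod_eq_zero_iff]
  constructor
  · intro h
    by_contra hc
    -- gcd is not a unit
    obtain ⟨p, hp, hpa, hpb⟩ : ∃ p : K[X], Irreducible p ∧ p ∣ a ∧ p ∣ b := by
      classical
      have hg : ¬ IsUnit (EuclideanDomain.gcd a b) := fun hu =>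
        hc (EuclideanDomain.gcd_isUnit_iff.1 hu)
      have hg0 : EuclideanDomain.gcd a b ≠ 0 := fun h0 =>
        ha (EuclideanDomain.gcd_eq_zero_iff.1 h0).1
      obtain ⟨p, hp, hpd⟩ := WfDvdMonoid.exists_irreducible_factor hg hg0
      exact ⟨p, hp, hpd.trans (EuclideanDomain.gcd_dvd_left a b),
        hpd.trans (EuclideanDomain.gcd_dvd_right a b)⟩
    obtain ⟨r, hr⟩ := IsAlgClosed.exists_aeval_eq_zero (AlgebraicClosure K) p
      (by
        have := hp.natDegree_pos
        intro h0
        have h1 : p.natDegree = 0 := natDegree_eq_of_degree_eq_some h0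
        omega)
    apply h
    rw [Multiset.mem_map]
    refine ⟨r, ?_, ?_⟩
    · rw [mem_aroots]
      refine ⟨ha, ?_⟩
      obtain ⟨c, rfl⟩ := hpa
      rw [map_mul, hr, zero_mul]
    · obtain ⟨c, rfl⟩ := hpb
      rw [map_mul, hr, zero_mul]
  · rintro ⟨u, v, huv⟩ h
    rw [Multiset.mem_map] at h
    obtain ⟨r, hr, hb⟩ := h
    rw [mem_aroots] at hr
    have := congrArg (aeval r) huv
    rw [map_add, map_mul, map_mul, hr.2, hb, mul_zero, mul_zero, add_zero, map_one] at this
    exact zero_ne_one this

theorem t_Rfrob : S_Rfrob := by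
  intro K _ _ a b
  have hL : CharP (AlgebraicClosure K) (ringChar K) := by
    have : CharP K (ringChar K) := ringChar.charP K
    exact charP_of_injective_algebraMap (algebraMap K (AlgebraicClosure K)).injective _
  let φ : AlgebraicClosure K →ₐ[K] AlgebraicClosure K := FiniteField.frobeniusAlgHom K _
  have hφ : ∀ x, φ x = x ^ Fintype.card K := by
    intro x
    rfl
  have hinj : Function.Injective φ := φ.toRingHom.injective
  have hroots : (a.aroots (AlgebraicClosure K)).map φ = a.aroots (AlgebraicClosure K) := by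
    have hsp : (a.map (algebraMap K (AlgebraicClosure K))).Splits := IsAlgClosed.splits _
    have h1 : (a.map (algebraMap K (AlgebraicClosure K))).map (φ : AlgebraicClosure K →+* AlgebraicClosure K) =
        a.map (algebraMap K (AlgebraicClosure K)) := by
      rw [Polynomial.map_map, AlgHom.comp_algebraMap]
    have h2 := Polynomial.Splits.roots_map hsp (φ : AlgebraicClosure K →+* AlgebraicClosure K)
    rw [h1] at h2
    exact h2.symm
  unfold R
  rw [← Multiset.prod_map_pow]
  have h3 : Multiset.map (fun r => (aeval r b) ^ Fintype.card K) (a.aroots (AlgebraicClosure K)) =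
      Multiset.map (fun r => aeval r b) ((a.aroots (AlgebraicClosure K)).map φ) := by
    rw [Multiset.map_map]
    apply Multiset.map_congr rfl
    intro r _
    show (aeval r b) ^ Fintype.card K = aeval (φ r) b
    rw [← hφ, Polynomial.aeval_algHom_apply]
  rw [h3, hroots]

end Pool.Agent.H6.W.G.NBAS2
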