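import Pool.Agent.H6.W.G.Stm

set_option autoImplicit false

namespace Pool.Agent.H6.W.G.NFROBSPLIT

open Polynomial Pool.Agent.H6.W.G

theorem t_Frob : S_Frob := by
  intro K _ _ g A e hg hdvd
  have : Fact (Irreducible g) := ⟨hg⟩
  have hg0 : g ≠ 0 := hg.ne_zero
  let pb := AdjoinRoot.powerBasis hg0
  have hfin : Module.Finite K (AdjoinRoot g) := pb.finite
  have hfr : Module.finrank K (AdjoinRoot g) = g.natDegree := by
    rw [pb.finrank, AdjoinRoot.powerBasis_dim]
  have : Finite (AdjoinRoot g) := Module.finite_of_finite K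
  let _ := Fintype.ofFinite (AdjoinRoot g)
  have hcard : Fintype.card (AdjoinRoot g) = Fintype.card K ^ g.natDegree := by
    rw [Module.card_eq_pow_finrank (K := K) (V := AdjoinRoot g), hfr]
  obtain ⟨n, rfl⟩ := hdvd
  rw [← AdjoinRoot.mk_eq_zero, map_sub, map_pow, pow_mul, ← hcard, sub_eq_zero]
  exact FiniteField.pow_card_pow n _

theorem t_Split : S_Split := by
  intro K _ a N ha hN
  induction hd : a.natDegree using Nat.strong_induction_on generalizing a with
  | _ d ih =>
    by_cases hc : IsCoprime a N
    · exact ⟨1, a, by rw [one_mul], monic_one, hc, 0, by simp⟩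
    · classical
      set g0 := EuclideanDomain.gcd a N with hg0
      have hg0ne : g0 ≠ 0 := by
        intro h
        exact ha (EuclideanDomain.gcd_eq_zero_iff.mp h).1
      have hnu : ¬ IsUnit g0 := fun h => hc (EuclideanDomain.gcd_isUnit_iff.mp h)
      have hlc : g0.leadingCoeff⁻¹ ≠ 0 := inv_ne_zero (leadingCoeff_ne_zero.mpr hg0ne)
      set g := g0 * C (g0.leadingCoeff)⁻¹ with hg
      have hgm : g.Monic := monic_mul_leadingCoeff_inv hg0ne
      have hassoc : Associated g0 g := by
        refine associated_mul_unit_right _ _ ?_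
        exact isUnit_C.mpr (isUnit_iff_ne_zero.mpr hlc)
      have hga : g ∣ a := hassoc.symm.dvd.trans (EuclideanDomain.gcd_dvd_left a N)
      have hgN : g ∣ N := hassoc.symm.dvd.trans (EuclideanDomain.gcd_dvd_right a N)
      obtain ⟨a', ha'⟩ := hga
      have ha'0 : a' ≠ 0 := by
        rintro rfl
        exact ha (by rw [ha', mul_zero])
      have hgnu : ¬ IsUnit g := fun h => hnu (hassoc.isUnit_iff.mpr h)
      have hgdeg : 0 < g.natDegree := by
        rw [Nat.pos_iff_ne_zero]
        intro h
        apply hgnu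
        rw [eq_one_of_monic_natDegree_zero hgm h]
        exact isUnit_one
      have hdeg : a.natDegree = g.natDegree + a'.natDegree := by
        rw [ha', natDegree_mul hgm.ne_zero ha'0]
      obtain ⟨m', a1, h1, h2, h3, k, h4⟩ := ih a'.natDegree (by omega) a' ha'0 rfl
      refine ⟨g * m', a1, ?_, hgm.mul h2, h3, k + 1, ?_⟩
      · rw [ha', h1]
        exact (mul_assoc g m' a1).symm
      · rw [pow_succ']
        exact mul_dvd_mul hgN h4

end Pool.Agent.H6.W.G.NFROBSPLIT
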