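import Pool.Agent.H6.W.G.Stm

namespace Pool.Agent.H6.W.G.NPELB
open Polynomial Pool.Agent.H6.W.G

theorem Om_mul {K : Type} [Field K] (v w : K[X]) (hv : v ≠ 0) (hw : w ≠ 0) :
    Om (v * w) = Om v + Om w := by
  unfold Om
  rw [← Multiset.card_add]
  exact Multiset.card_eq_card_of_rel (UniqueFactorizationMonoid.factors_mul hv hw)

theorem Om_irr {K : Type} [Field K] (v : K[X]) (hv : Irreducible v) : Om v = 1 := by
  unfold Om
  have h := UniqueFactorizationMonoid.factors_unique
    (f := UniqueFactorizationMonoid.factors v) (g := {v})
    (fun x hx => UniqueFactorizationMonoid.irreducible_of_factor x hx)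
    (fun x hx => by rw [Multiset.mem_singleton] at hx; rw [hx]; exact hv)
    (by
      rw [Multiset.prod_singleton]
      exact UniqueFactorizationMonoid.factors_prod hv.ne_zero)
  have h2 := Multiset.card_eq_card_of_rel h
  rw [h2]; rfl

theorem tri (n m : ℕ) : (n + m) * (n + m - 1) / 2 = n * (n - 1) / 2 + m * (m - 1) / 2 + n * m := by
  rcases n with _ | n
  · simp
  rcases m with _ | m
  · simp
  have h1 : ∀ k : ℕ, 2 * ((k + 1) * k / 2) = (k + 1) * k := by
    intro k
    have : 2 ∣ (k + 1) * k := by
      rw [mul_comm]; exact (Nat.even_mul_succ_self k).two_dvd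
    exact Nat.mul_div_cancel' this
  have e1 : n + 1 - 1 = n := by omega
  have e2 : m + 1 - 1 = m := by omega
  have e3 : n + 1 + (m + 1) - 1 = n + m + 1 := by omega
  rw [e1, e2, e3]
  have a1 := h1 n
  have a2 := h1 m
  have a3 := h1 (n + m + 1)
  have e4 : n + 1 + (m + 1) = n + m + 1 + 1 := by omega
  rw [e4]
  nlinarith [a1, a2, a3]

theorem t_Pel (hmL : S_RmulL) (hmR : S_RmulR) (hc : S_Rcongr) (hsw : S_Rswap) (hne : S_Rne)
    (hfr : S_Rfrob) (hRC : S_RC) (hI : S_PelIrr) : S_Pel := by
  intro K _ _ hodd u hu hsq
  induction hd : u.natDegree using Nat.strong_induction_on generalizing u with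
  | _ D ih =>
    subst hd
    by_cases h1 : u = 1
    · subst h1
      have hOm : Om (1 : K[X]) = 0 := by
        unfold Om
        simp
      have hR : R (1 : K[X]) (derivative 1) = 1 := by
        unfold R; simp
      rw [hR, hOm]; simp
    · have hnu : ¬ IsUnit u := by
        intro h; exact h1 (hu.isUnit_iff.1 h)
      obtain ⟨v, hvm, hvi, w, hw⟩ := Polynomial.exists_monic_irreducible_factor u hnu
      subst hw
      have hwm : w.Monic := hvm.of_mul_monic_left hu
      have hcop : IsCoprime v w := by
        rw [hvi.coprime_iff_not_dvd]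
        rintro ⟨z, hz⟩
        apply hvi.not_isUnit
        apply hsq v
        exact ⟨z, by rw [hz]; ring⟩
      have hwsq : Squarefree w := hsq.of_mul_right
      have hv0 : v ≠ 0 := hvm.ne_zero
      have hw0 : w ≠ 0 := hwm.ne_zero
      have hdeg : (v * w).natDegree = v.natDegree + w.natDegree := hvm.natDegree_mul hwm
      have hvpos : 0 < v.natDegree := hvi.natDegree_pos
      have ihw := ih w.natDegree (by omega) w hwm hwsq rfl
      have hIv := hI K hodd v hvm hvi
      have e1 : R (v * w) (derivative (v * w)) =
          R v (derivative v) * R w (derivative w) * (R v w * R w v) := by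
        rw [hmL K v w _ hv0 hw0]
        have a1 : R v (derivative (v * w)) = R v (derivative v * w) := by
          apply hc
          rw [derivative_mul]
          exact ⟨derivative w, by ring⟩
        have a2 : R w (derivative (v * w)) = R w (v * derivative w) := by
          apply hc
          rw [derivative_mul]
          exact ⟨derivative v, by ring⟩
        rw [a1, a2, hmR, hmR]
        ring
      have e2 : R v w * R w v = (-1) ^ (v.natDegree * w.natDegree) * (R w v) ^ 2 := by
        rw [hsw K v w hvm hwm]; ring
      have hRne : R w v ≠ 0 := (hne K w v hw0).2 hcop.symm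
      have hcard : 1 < Fintype.card K := Fintype.one_lt_card
      have e3 : (R w v ^ 2) ^ hq K = 1 := by
        rw [← pow_mul]
        have h2 : 2 * hq K = Fintype.card K - 1 := by
          unfold hq
          obtain ⟨k, hk⟩ := hodd
          omega
        rw [h2]
        have h3 := hfr K w v
        have h4 : R w v ^ (Fintype.card K - 1) * R w v = R w v := by
          rw [← pow_succ]
          have : Fintype.card K - 1 + 1 = Fintype.card K := by omega
          rw [this]; exact h3
        exact mul_right_cancel₀ hRne (by rw [h4, one_mul])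
      rw [e1, e2, mul_pow, mul_pow, mul_pow, e3, hIv, ihw, hdeg, tri, Om_mul v w hv0 hw0,
        Om_irr v hvi]
      ring

end Pool.Agent.H6.W.G.NPELB
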