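import Mathlib

/-!
# Liouville sign patterns over F_q[t]: statements

All statements are for a finite field `K` of odd cardinality `q`, `L = AlgebraicClosure K`.
-/

open Polynomial

namespace Pool.Agent.H6.W.G

noncomputable section

/-- `R a b`: product of the values of `b` over the roots of `a` (with multiplicity) in the
algebraic closure. -/
def R {K : Type} [Field K] (a b : K[X]) : AlgebraicClosure K :=
  ((a.aroots (AlgebraicClosure K)).map (fun r => aeval r b)).prod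

/-- number of irreducible factors, with multiplicity -/
def Om {K : Type} [Field K] (f : K[X]) : ℕ := (UniqueFactorizationMonoid.factors f).card

/-- half of `q - 1` -/
def hq (K : Type) [Fintype K] : ℕ := (Fintype.card K - 1) / 2

/-- `X + s'/2` -/
def Y {K : Type} [Field K] (s : K[X]) : K[X] := X + C (2⁻¹ : K) * derivative s

/-- `(X + s'/2)^4 + s + s'^2/4` -/
def H {K : Type} [Field K] (s : K[X]) : K[X] :=
  Y s ^ 4 + s + (C (2⁻¹ : K) * derivative s) ^ 2

/-! ### basics on R -/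

def S_RmulL : Prop := ∀ (K : Type) [Field K] (a b c : K[X]), a ≠ 0 → b ≠ 0 →
  R (a * b) c = R a c * R b c

def S_RmulR : Prop := ∀ (K : Type) [Field K] (a b c : K[X]), R a (b * c) = R a b * R a c

def S_Rcongr : Prop := ∀ (K : Type) [Field K] (a b c : K[X]), a ∣ b - c → R a b = R a c

def S_Rswap : Prop := ∀ (K : Type) [Field K] (a b : K[X]), a.Monic → b.Monic →
  R a b = (-1) ^ (a.natDegree * b.natDegree) * R b a

def S_Rne : Prop := ∀ (K : Type) [Field K] (a b : K[X]), a ≠ 0 → (R a b ≠ 0 ↔ IsCoprime a b)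

def S_RC : Prop := ∀ (K : Type) [Field K] (a : K[X]) (c : K),
  R a (C c) = (algebraMap K (AlgebraicClosure K) c) ^ a.natDegree

def S_Rfrob : Prop := ∀ (K : Type) [Field K] [Fintype K] (a b : K[X]),
  R a b ^ Fintype.card K = R a b

/-! ### Pellet - Stickelberger -/

/-- irreducible case -/
def S_PelIrr : Prop := ∀ (K : Type) [Field K] [Fintype K], Odd (Fintype.card K) →
  ∀ u : K[X], u.Monic → Irreducible u →
  R u (derivative u) ^ hq K =
    ((-1) ^ (u.natDegree * (u.natDegree - 1) / 2)) ^ hq K * (-1) ^ (u.natDegree + 1)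

/-- squarefree case -/
def S_Pel : Prop := ∀ (K : Type) [Field K] [Fintype K], Odd (Fintype.card K) →
  ∀ u : K[X], u.Monic → Squarefree u →
  R u (derivative u) ^ hq K =
    ((-1) ^ (u.natDegree * (u.natDegree - 1) / 2)) ^ hq K * (-1) ^ (u.natDegree + Om u)

/-! ### constructions -/

/-- many monic irreducible polynomials of large odd degree -/
def S_Irr : Prop := ∀ (K : Type) [Field K] [Fintype K] (S : Finset K[X]) (B : ℕ),
  ∃ f : K[X] → K[X], Set.InjOn f S ∧
    ∀ s ∈ S, (f s).Monic ∧ Irreducible (f s) ∧ Odd (f s).natDegree ∧ B < (f s).natDegree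

/-- the polynomial `V` -/
def S_V : Prop := ∀ (K : Type) [Field K] [Fintype K] (S : Finset K[X]) (f h : K[X] → K[X])
  (v0 : ℕ), Set.InjOn f S → (∀ s ∈ S, (f s).Monic ∧ Irreducible (f s)) →
  ∃ V : K[X], V.Monic ∧ v0 ≤ V.natDegree ∧ ∀ s ∈ S, f s ∣ V ^ Fintype.card K + h s

/-- the polynomial `A` -/
def S_A : Prop := ∀ (K : Type) [Field K] [Fintype K] (S : Finset K[X]) (f : K[X] → K[X])
  (N : K[X]), N.Monic → Set.InjOn f S →
  (∀ s ∈ S, (f s).Monic ∧ Irreducible (f s) ∧ IsCoprime (f s) N) →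
  ∃ a0 : ℕ, ∀ a, a0 ≤ a → ∀ t : K[X] → K[X],
    ∃ A : K[X], A.Monic ∧ A.natDegree = a ∧ N ∣ A ∧ ∀ s ∈ S, f s ∣ A - t s

/-- `A^(q^e) ≡ A` modulo irreducible polynomials of degree dividing `e` -/
def S_Frob : Prop := ∀ (K : Type) [Field K] [Fintype K] (g A : K[X]) (e : ℕ),
  Irreducible g → g.natDegree ∣ e → g ∣ A ^ (Fintype.card K ^ e) - A

/-- the N-part of a polynomial -/
def S_Split : Prop := ∀ (K : Type) [Field K] (a N : K[X]), a ≠ 0 → N ≠ 0 →
  ∃ m a1 : K[X], a = m * a1 ∧ m.Monic ∧ IsCoprime a1 N ∧ ∃ k : ℕ, m ∣ N ^ k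

/-- generic translation -/
def S_Trans : Prop := ∀ (K : Type) [Field K] [Fintype K], Odd (Fintype.card K) →
  ∀ S : Finset K[X], ∃ s0 : K[X], ∀ s ∈ S,
    Y (s + s0) ≠ 0 ∧ derivative (H (s + s0)) ≠ 0 ∧
    ∀ t ∈ S, H (s + s0) = H (t + s0) → s = t

/-- the key lemma: with all data but `E`, `c` fixed, the Liouville function of
`(X + E)^2 + E^4 + V^q + s` is `κ * χ(c)^(deg f)`. -/
def S_Key : Prop := ∀ (K : Type) [Field K] [Fintype K], Odd (Fintype.card K) →
  ∀ (s V N Qt f m a1 d y1 : K[X]) (k e : ℕ), 1 ≤ k →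
    N.Monic → Qt.Monic → f.Monic → Irreducible f → IsCoprime f N → Qt ∣ N →
    V ^ Fintype.card K + H s = f * Qt →
    X ^ 2 + V ^ Fintype.card K + s = m * a1 → m.Monic → IsCoprime a1 N → m ∣ N ^ k →
    Y s = d * y1 → d.Monic → IsCoprime y1 N → d ∣ N ^ k →
    (V ^ Fintype.card K).natDegree < e → s.natDegree < e → 1 < e →
    ∃ κ : AlgebraicClosure K, κ ≠ 0 ∧ ∀ (E : K[X]) (c : K), c ≠ 0 → E.Monic →
      E.natDegree = e → derivative E = 0 → N ^ (2 * k) ∣ E → f ∣ Y s + E - C c →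
      (-1) ^ Om ((X + E) ^ 2 + E ^ 4 + V ^ Fintype.card K + s) =
        κ * (algebraMap K (AlgebraicClosure K) c) ^ (hq K * f.natDegree)

/-- the main theorem -/
def S_Main : Prop := ∀ (K : Type) [Field K] [Fintype K], Odd (Fintype.card K) →
  ∀ (S : Finset K[X]) (ε : K[X] → ℤˣ) (n0 : ℕ),
    ∃ f : K[X], f.Monic ∧ n0 ≤ f.natDegree ∧ ∀ s ∈ S, (-1 : ℤˣ) ^ Om (f + s) = ε s

end

end Pool.Agent.H6.W.G
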